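import Pool.Graph.R_seed8.H241R3.FV.Asm
import Pool.Graph.R_seed8.H241R3.FV.TGen
import Pool.Graph.R_seed8.H241R3.FV.TEven
import Pool.Graph.R_seed8.H241R3.FV.TParity
import Pool.Graph.R_seed8.H241R3.FV.TCoverT

set_option autoImplicit false

/-!
# The volume of the part of a filling far from the boundary: the general inequality
-/

open MeasureTheory Metric Set Filter Topology InnerProductGeometry

namespace Pool.Agent.H82.FD

open Pool.Agent.H241R3.FV

/-- The volume of the part of a filling formed by the points at distance at least `t` from the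
boundary. -/
noncomputable def deepVol {d : ℕ} {M : Type} [MetricSpace M] (S : Fill d M) (t : ℝ) : ENNReal :=
  ∑' i, ∫⁻ p in (S.chart i).D ∩ {p | t ≤ infDist ((S.chart i).map p) (range S.bd)},
    ENNReal.ofReal √((S.chart i).G p).det

/-- The part of a chart far from the boundary is measurable. -/
theorem meas_deep {d : ℕ} {M : Type} [MetricSpace M] (S : Fill d M) (t : ℝ) (i : S.ι) :
    MeasurableSet ((S.chart i).D ∩ {p | t ≤ infDist ((S.chart i).map p) (range S.bd)}) := by
  set C := S.chart i with hC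
  have hloc := TLoc.taskLoc (d + 1) M C
  have hcont : ContinuousOn (fun p => infDist (C.map p) (range S.bd)) C.U := by
    have h1 : ContinuousOn C.map C.U := by
      intro p hp
      refine ContinuousAt.continuousWithinAt ?_
      obtain ⟨r, hr, -, hr3⟩ := hloc p hp 1 one_pos
      rw [Metric.continuousAt_iff]
      intro ε hε
      set K : ℝ := √(∑ i, ∑ j, |C.G p i j|) + 1 with hK
      have hK0 : 0 < K := by positivity
      refine ⟨min r (ε / K), lt_min hr (div_pos hε hK0), fun {y} hy => ?_⟩
      have hy1 : dist y p < r := lt_of_lt_of_le hy (min_le_left _ _)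
      have hy2 : dist y p < ε / K := lt_of_lt_of_le hy (min_le_right _ _)
      have h2 := hr3 y hy1 p (mem_ball_self hr)
      have h3 := gnorm_le (C.G p) (y - p)
      rw [dist_eq_norm] at hy2
      have h4 : K * ‖y - p‖ < ε := by
        rw [lt_div_iff₀ hK0] at hy2
        linarith
      have h5 : gnorm (C.G p) (y - p) + 1 * ‖y - p‖ ≤ K * ‖y - p‖ := by
        rw [hK, add_mul]
        linarith
      linarith
    exact (continuous_infDist_pt _).comp_continuousOn h1
  have hopen : IsOpen (C.U ∩ (fun p => infDist (C.map p) (range S.bd)) ⁻¹' Iio t) :=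
    hcont.isOpen_inter_preimage C.isOpen_U isOpen_Iio
  have e : C.D ∩ {p | t ≤ infDist (C.map p) (range S.bd)} =
      C.D \ (C.U ∩ (fun p => infDist (C.map p) (range S.bd)) ⁻¹' Iio t) := by
    ext p
    constructor
    · rintro ⟨h1, h2⟩
      refine ⟨h1, fun h3 => ?_⟩
      have h4 : infDist (C.map p) (range S.bd) < t := h3.2
      have h5 : t ≤ infDist (C.map p) (range S.bd) := h2
      exact absurd h5 (not_le.mpr h4)
    · rintro ⟨h1, h2⟩
      refine ⟨h1, ?_⟩
      by_contra h3
      have h4 : ¬ t ≤ infDist (C.map p) (range S.bd) := h3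
      have h5 : infDist (C.map p) (range S.bd) < t := not_le.mp h4
      exact h2 ⟨C.D_sub h1, h5⟩
  rw [e]
  exact C.meas_D.diff hopen.measurableSet

theorem abs_bound (d : ℕ) (hd : 1 ≤ d) (M : Type) [MetricSpace M] (S : Fill d M)
    (hS : S.NonShort) (htop : (CompactSpace M ∧ S.Triangulated) ∨ S.NoRetraction)
    (F : Sph (d + 1) → M → ℝ)
    (fa : ∀ x q q', |F x q - F x q'| ≤ dist q q')
    (fb : ∀ x x' q, |F x q - F x' q| ≤ angle (x : E (d + 1)) (x' : E (d + 1)))
    (l r t : ℝ) (hl : 0 < l) (hr0 : 0 ≤ r) (hr : r ≤ l)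
    (hb : ∀ p, ∫ x : Sph (d + 1), F x (S.bd p) • (x : E (d + 1)) ∂(sig (d + 1)) =
      l • (p : E (d + 1)))
    (hnear : ∀ q, infDist q (range S.bd) < t →
      r ≤ ‖∫ x : Sph (d + 1), F x q • (x : E (d + 1)) ∂(sig (d + 1))‖) :
    volume (ball (0 : E (d + 1)) 1) * ENNReal.ofReal ((r / om (d + 1)) ^ (d + 1)) ≤
      deepVol S t := by
  classical
  obtain ⟨om_pos, -, sig_univ, -⟩ := TConst.taskConst TPolar.taskPolar d hd
  have hsig0 : 0 ≤ (sig (d + 1)).real univ := measureReal_nonneg
  let Φ : M → E (d + 1) := fun q => ∫ x : Sph (d + 1), F x q • (x : E (d + 1)) ∂(sig (d + 1))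
  have hint : ∀ q, Integrable (fun x : Sph (d + 1) => F x q • (x : E (d + 1)))
      (sig (d + 1)) := by
    intro q
    have hc : Continuous (fun x : Sph (d + 1) => F x q • (x : E (d + 1))) :=
      (cont_of_angle _ (fun x x' => fb x x' q)).smul continuous_subtype_val
    exact hc.integrable_of_hasCompactSupport (HasCompactSupport.of_compactSpace _)
  have hlip : ∀ q q', ‖Φ q - Φ q'‖ ≤ dist q q' * (sig (d + 1)).real univ := by
    intro q q'
    have h1 : Φ q - Φ q' =
        ∫ x : Sph (d + 1), (F x q - F x q') • (x : E (d + 1)) ∂(sig (d + 1)) := by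
      show (∫ x : Sph (d + 1), F x q • (x : E (d + 1)) ∂(sig (d + 1))) -
        (∫ x : Sph (d + 1), F x q' • (x : E (d + 1)) ∂(sig (d + 1))) = _
      rw [← integral_sub (hint q) (hint q')]
      congr 1
      ext1 x
      rw [sub_smul]
    rw [h1]
    refine norm_integral_le_of_norm_le_const (Eventually.of_forall fun x => ?_)
    rw [norm_smul, norm_sph, mul_one, Real.norm_eq_abs]
    exact fa x q q'
  have hΦc : Continuous Φ := by
    have : LipschitzWith (Real.toNNReal ((sig (d + 1)).real univ)) Φ := by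
      refine LipschitzWith.of_dist_le_mul fun q q' => ?_
      rw [dist_eq_norm, Real.coe_toNNReal _ hsig0, mul_comm]
      exact hlip q q'
    exact this.continuous
  have hΦb : ∀ p, Φ (S.bd p) = l • (p : E (d + 1)) := hb
  have hcov : ball (0 : E (d + 1)) l ⊆ range Φ := by
    rcases htop with ⟨hcomp, htri⟩ | hno
    · exact TCoverT.taskCoverT TGen.taskGen TParity.taskParity TEven.taskEven d hd M S.bd hS htri
        Φ l ((sig (d + 1)).real univ) hl hΦc hlip hΦb
    · exact TCover.taskCover (d + 1) (Nat.succ_pos d) M S.bd hno Φ l hl hΦc hΦb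
  have := S.countable
  -- the part of the chart
  let W : S.ι → Set (E (d + 1)) := fun i =>
    (S.chart i).D ∩ {p | t ≤ infDist ((S.chart i).map p) (range S.bd)}
  have hWm : ∀ i, MeasurableSet (W i) := fun i => meas_deep S t i
  have hWD : ∀ i, W i ⊆ (S.chart i).D := fun i => inter_subset_left
  -- the ball is covered by the images of the parts
  have hsub : ball (0 : E (d + 1)) r ⊆
      ⋃ i, (fun p => Φ ((S.chart i).map p)) '' (W i) := by
    intro y hy
    have hy1 : ‖y‖ < r := by simpa using hy
    obtain ⟨q, rfl⟩ := hcov (ball_subset_ball hr hy)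
    have hq : t ≤ infDist q (range S.bd) := by
      by_contra hcon
      exact absurd (hnear q (not_le.mp hcon)) (not_le.mpr hy1)
    rcases S.cover q with ⟨x, rfl⟩ | ⟨i, p, hp, rfl⟩
    · exfalso
      rw [hΦb, norm_smul, norm_sph, mul_one, Real.norm_of_nonneg hl.le] at hy1
      exact absurd hr (not_le.mpr hy1)
    · exact mem_iUnion.mpr ⟨i, ⟨p, ⟨hp, hq⟩, rfl⟩⟩
  -- the estimate in one chart
  have hchart : ∀ i, volume ((fun p => Φ ((S.chart i).map p)) '' (W i)) ≤
      ENNReal.ofReal (om (d + 1) ^ (d + 1)) *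
        ∫⁻ p in (W i), ENNReal.ofReal √((S.chart i).G p).det := by
    intro i
    have hWi := hWm i
    have hWDi := hWD i
    set C := S.chart i with hC
    set Z := W i with hZ
    let Ψ : E (d + 1) → E (d + 1) := fun p => Φ (C.map p)
    have hloc := TLoc.taskLoc (d + 1) M C
    have hdiff := TDiff.taskDiff (d + 1) (Nat.succ_pos d) C.U C.isOpen_U C.G
      (fun x p => F x (C.map p)) (by
        intro p hp ε hε
        obtain ⟨r, hr, hr2, hr3⟩ := hloc p hp ε hε
        exact ⟨r, hr, hr2, fun x y hy z hz => (fa x _ _).trans (hr3 y hy z hz)⟩)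
      (fun x x' p _ => fb x x' _)
    -- the derivative of Ψ
    let good : E (d + 1) → (E (d + 1) →L[ℝ] E (d + 1)) → Prop := fun p L =>
      HasFDerivAt Ψ L p ∧ |L.det| ≤ om (d + 1) ^ (d + 1) * √(C.G p).det
    have hgood : ∀ᵐ p ∂(volume : Measure (E (d + 1))), p ∈ C.U → ∃ L, good p L := by
      filter_upwards [hdiff] with p hp hpU
      obtain ⟨L, hL1, hL2⟩ := hp hpU
      refine ⟨L, hL1, ?_⟩
      rw [det_mat]
      refine TMat.taskMat (d + 1) (Nat.succ_pos d) (mat L) (C.G p) (C.pos_G p hpU) (om (d + 1))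
        om_pos.le ?_
      intro A hA
      refine (hL2 A).trans ?_
      have h1 : (fun x : Sph (d + 1) => gnorm (C.G p) (act A (x : E (d + 1)))) =
          fun _ => (1 : ℝ) := by
        funext x
        exact gnorm_act _ _ hA x
      rw [h1, integral_const, smul_eq_mul, mul_one, sig_univ]
    let bad : Set (E (d + 1)) := {p | ¬ (p ∈ C.U → ∃ L, good p L)}
    have hbad : volume bad = 0 := hgood
    let N : Set (E (d + 1)) := toMeasurable volume bad
    have hN0 : volume N = 0 := by rw [measure_toMeasurable, hbad]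
    have hNm : MeasurableSet N := measurableSet_toMeasurable _ _
    have hbN : bad ⊆ N := subset_toMeasurable _ _
    have hex : ∀ p ∈ Z \ N, ∃ L, good p L := by
      intro p hp
      by_contra hcon
      apply hp.2
      apply hbN
      show ¬ (p ∈ C.U → ∃ L, good p L)
      intro h
      exact hcon (h (C.D_sub (hWDi hp.1)))
    let f' : E (d + 1) → (E (d + 1) →L[ℝ] E (d + 1)) := fun p =>
      if h : ∃ L, good p L then h.choose else 0
    have hf' : ∀ p ∈ Z \ N, good p (f' p) := by
      intro p hp
      have h := hex p hp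
      simp only [f', dif_pos h]
      exact h.choose_spec
    have step1 : volume (Ψ '' (Z \ N)) ≤
        ∫⁻ p in Z \ N, ENNReal.ofReal |(f' p).det| :=
      addHaar_image_le_lintegral_abs_det_fderiv volume (hWi.diff hNm)
        (fun p hp => (hf' p hp).1.hasFDerivWithinAt)
    have step2 : ∫⁻ p in Z \ N, ENNReal.ofReal |(f' p).det| ≤
        ENNReal.ofReal (om (d + 1) ^ (d + 1)) *
          ∫⁻ p in Z, ENNReal.ofReal √(C.G p).det := by
      rw [← lintegral_const_mul' _ _ ENNReal.ofReal_ne_top]
      calc ∫⁻ p in Z \ N, ENNReal.ofReal |(f' p).det|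
          ≤ ∫⁻ p in Z \ N, ENNReal.ofReal (om (d + 1) ^ (d + 1)) *
              ENNReal.ofReal √(C.G p).det := by
            refine setLIntegral_mono' (hWi.diff hNm) fun p hp => ?_
            rw [← ENNReal.ofReal_mul (by positivity)]
            exact ENNReal.ofReal_le_ofReal (hf' p hp).2
        _ ≤ _ := lintegral_mono_set sdiff_subset
    have step3 : volume (Ψ '' (Z ∩ N)) = 0 := by
      refine TNull.taskNull (d + 1) C.U Ψ ?_ _ (fun p hp => C.D_sub (hWDi hp.1)) ?_
      · intro p hp
        obtain ⟨r, hr, hr2, hr3⟩ := hloc p hp 1 one_pos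
        refine ⟨r, hr, (√(∑ i, ∑ j, |C.G p i j|) + 1) * (sig (d + 1)).real univ, ?_⟩
        intro y hy z hz
        calc ‖Ψ y - Ψ z‖ ≤ dist (C.map y) (C.map z) * (sig (d + 1)).real univ := hlip _ _
          _ ≤ (gnorm (C.G p) (y - z) + 1 * ‖y - z‖) * (sig (d + 1)).real univ := by
              gcongr
              exact hr3 y hy z hz
          _ ≤ (√(∑ i, ∑ j, |C.G p i j|) * ‖y - z‖ + 1 * ‖y - z‖) *
                (sig (d + 1)).real univ := by
              gcongr
              exact gnorm_le _ _
          _ = _ := by ring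
      · exact measure_mono_null inter_subset_right hN0
    calc volume (Ψ '' Z) ≤ volume (Ψ '' (Z \ N) ∪ Ψ '' (Z ∩ N)) := by
          apply measure_mono
          rw [← image_union, sdiff_union_inter]
      _ ≤ volume (Ψ '' (Z \ N)) + volume (Ψ '' (Z ∩ N)) := measure_union_le _ _
      _ = volume (Ψ '' (Z \ N)) := by rw [step3, add_zero]
      _ ≤ _ := step1.trans step2
  -- conclusion
  have htot : volume (ball (0 : E (d + 1)) r) ≤
      ENNReal.ofReal (om (d + 1) ^ (d + 1)) * deepVol S t := by
    calc volume (ball (0 : E (d + 1)) r)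
        ≤ volume (⋃ i, (fun p => Φ ((S.chart i).map p)) '' (W i)) := measure_mono hsub
      _ ≤ ∑' i, volume ((fun p => Φ ((S.chart i).map p)) '' (W i)) :=
          measure_iUnion_le _
      _ ≤ ∑' i, ENNReal.ofReal (om (d + 1) ^ (d + 1)) *
            ∫⁻ p in (W i), ENNReal.ofReal √((S.chart i).G p).det :=
          ENNReal.tsum_le_tsum hchart
      _ = _ := ENNReal.tsum_mul_left
  rw [Measure.addHaar_ball _ _ hr0] at htot
  have hfin : Module.finrank ℝ (E (d + 1)) = d + 1 := by simp
  rw [hfin] at htot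
  have hne : ENNReal.ofReal (om (d + 1) ^ (d + 1)) ≠ 0 := by
    rw [Ne, ENNReal.ofReal_eq_zero, not_le]
    positivity
  rw [← ENNReal.mul_le_mul_iff_right hne ENNReal.ofReal_ne_top]
  refine le_trans (le_of_eq ?_) htot
  rw [mul_comm (volume (ball (0 : E (d + 1)) 1)), ← mul_assoc, ← ENNReal.ofReal_mul (by positivity)]
  congr 2
  rw [div_pow]
  field_simp

end Pool.Agent.H82.FD
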