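import Pool.Agent.H82.FD.Pol

set_option autoImplicit false

/-!
# Sets on the sphere with small diameter, and the second bound
-/

open MeasureTheory Metric Set Filter Topology InnerProductGeometry

namespace Pool.Agent.H82.FD

open Pool.Agent.H241R3.FV
open Pool.Agent.H241R3.FV.TBdry (cont_angle integrable_of_cont)

/-- Unit vectors with inner products at least `c`: a lower bound for the norm of the points of the
convex hull. -/
theorem jung (n : ℕ) (A : Set (E n)) (c : ℝ)
    (hu : ∀ a ∈ A, ‖a‖ = 1) (hp : ∀ a ∈ A, ∀ b ∈ A, c ≤ inner ℝ a b) :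
    ∀ x ∈ convexHull ℝ A, (n * c + 1) / (n + 1) ≤ ‖x‖ ^ 2 := by
  intro x h0
  obtain ⟨ι, _, z, w, hz, hai, hw, hw1, hs⟩ := eq_pos_convex_span_of_mem_convexHull h0
  have hzA : ∀ i, z i ∈ A := fun i => hz ⟨i, rfl⟩
  have hcard : (Fintype.card ι : ℝ) ≤ n + 1 := by
    have h1 := hai.card_le_finrank_succ
    have h2 : Module.finrank ℝ (vectorSpan ℝ (Set.range z)) ≤ n := by
      have := Submodule.finrank_le (vectorSpan ℝ (Set.range z))
      simpa using this
    exact_mod_cast h1.trans (by omega)
  have hne : Nonempty ι := by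
    by_contra hcon
    rw [not_nonempty_iff] at hcon
    simp at hw1
  have hc1 : c ≤ 1 := by
    obtain ⟨i⟩ := hne
    have := hp _ (hzA i) _ (hzA i)
    rw [real_inner_self_eq_norm_sq, hu _ (hzA i)] at this
    linarith
  have hnR : (0 : ℝ) ≤ n := Nat.cast_nonneg n
  classical
  have h1 : ‖x‖ ^ 2 = ∑ i, ∑ j, w i * w j * inner ℝ (z i) (z j) := by
    rw [← real_inner_self_eq_norm_sq, ← hs, sum_inner]
    refine Finset.sum_congr rfl fun i _ => ?_
    rw [inner_sum]
    refine Finset.sum_congr rfl fun j _ => ?_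
    rw [inner_smul_left, inner_smul_right]
    simp
    ring
  have h3 : ∑ i, ∑ j, w i * w j * inner ℝ (z i) (z j) ≥
      ∑ i, ∑ j, w i * w j * (c + (1 - c) * (if i = j then 1 else 0)) := by
    refine Finset.sum_le_sum fun i _ => Finset.sum_le_sum fun j _ => ?_
    refine mul_le_mul_of_nonneg_left ?_ (mul_nonneg (hw i).le (hw j).le)
    by_cases hij : i = j
    · subst hij
      rw [if_pos rfl, real_inner_self_eq_norm_sq, hu _ (hzA i)]
      linarith
    · rw [if_neg hij]
      have := hp _ (hzA i) _ (hzA j)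
      linarith
  have h4 : ∑ i, ∑ j, w i * w j * (c + (1 - c) * (if i = j then 1 else 0)) =
      c + (1 - c) * ∑ i, w i ^ 2 := by
    have h5 : ∀ i, ∑ j, w i * w j * (c + (1 - c) * (if i = j then 1 else 0)) =
        c * w i + (1 - c) * w i ^ 2 := by
      intro i
      have h6 : ∀ j, w i * w j * (c + (1 - c) * (if i = j then 1 else 0)) =
          c * w i * w j + (if i = j then (1 - c) * w i * w j else 0) := by
        intro j
        split_ifs <;> ring
      rw [Finset.sum_congr rfl fun j _ => h6 j, Finset.sum_add_distrib, ← Finset.mul_sum, hw1,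
        Finset.sum_ite_eq]
      simp
      ring
    rw [Finset.sum_congr rfl fun i _ => h5 i, Finset.sum_add_distrib, ← Finset.mul_sum,
      ← Finset.mul_sum, hw1, mul_one]
  have h7 : 1 ≤ (Fintype.card ι : ℝ) * ∑ i, w i ^ 2 := by
    have := sq_sum_le_card_mul_sum_sq (s := (Finset.univ : Finset ι)) (f := w)
    rw [hw1, one_pow] at this
    simpa using this
  have h8 : 0 ≤ ∑ i, w i ^ 2 := Finset.sum_nonneg fun i _ => sq_nonneg _
  have h9 : 1 ≤ ((n : ℝ) + 1) * ∑ i, w i ^ 2 :=
    h7.trans (mul_le_mul_of_nonneg_right hcard h8)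
  rw [h4] at h3
  have h11 : (1 - c) ≤ ((n : ℝ) + 1) * ((1 - c) * ∑ i, w i ^ 2) := by
    have := mul_le_mul_of_nonneg_left h9 (by linarith : (0 : ℝ) ≤ 1 - c)
    linarith
  rw [h1, div_le_iff₀ (by positivity)]
  have h12 := mul_le_mul_of_nonneg_right h3 (by positivity : (0 : ℝ) ≤ (n : ℝ) + 1)
  linarith

/-- If the open cap of radius `τ` about `p` lies in the open half space of `e`, then the inner
product of `p` and `e` is at least `sin τ`. -/
theorem margin {n : ℕ} (p : Sph n) (e : E n) (he : ‖e‖ = 1) (τ : ℝ) (h0 : 0 < τ)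
    (h1 : τ ≤ Real.pi / 2)
    (h : ∀ a : Sph n, angle (a : E n) (p : E n) < τ → 0 < inner ℝ e (a : E n)) :
    Real.sin τ ≤ inner ℝ e (p : E n) := by
  by_contra hcon
  push Not at hcon
  have hp : ‖(p : E n)‖ = 1 := norm_sph p
  have hp0 : (p : E n) ≠ 0 := by
    intro h3
    rw [h3, norm_zero] at hp
    exact zero_ne_one hp
  set x : ℝ := inner ℝ e (p : E n) with hx
  have hx0 : 0 < x := h p (by rw [angle_self hp0]; exact h0)
  have hx1 : x < 1 := lt_of_lt_of_le hcon (Real.sin_le_one _)
  set c : ℝ := √(1 - x ^ 2) with hc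
  have hc2 : c ^ 2 = 1 - x ^ 2 := Real.sq_sqrt (by nlinarith)
  have hcpos : 0 < c := Real.sqrt_pos.mpr (by nlinarith)
  let v : E n := c • (p : E n) - (x / c) • (e - x • (p : E n))
  have hpe : inner ℝ (p : E n) e = x := by rw [real_inner_comm]
  have hpp : inner ℝ (p : E n) (p : E n) = (1 : ℝ) := by
    rw [real_inner_self_eq_norm_sq, hp]; norm_num
  have hee : inner ℝ e e = (1 : ℝ) := by
    rw [real_inner_self_eq_norm_sq, he]; norm_num
  have hev : inner ℝ e v = 0 := by
    simp only [v, inner_sub_right, inner_smul_right, ← hx, hee]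
    field_simp
    nlinarith
  have hpv : inner ℝ (p : E n) v = c := by
    simp only [v, inner_sub_right, inner_smul_right, hpe, hpp]
    ring
  have hvv : ‖v‖ = 1 := by
    have h2 : inner ℝ v v = (1 : ℝ) := by
      have h3 : inner ℝ v v = c * inner ℝ (p : E n) v -
          (x / c) * (inner ℝ e v - x * inner ℝ (p : E n) v) := by
        conv_lhs => rw [show v = c • (p : E n) - (x / c) • (e - x • (p : E n)) from rfl]
        rw [inner_sub_left, inner_smul_left, inner_smul_left, inner_sub_left, inner_smul_left]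
        simp only [v]
        simp
      rw [h3, hev, hpv]
      field_simp
      nlinarith
    rw [real_inner_self_eq_norm_sq] at h2
    have h4 : (‖v‖ - 1) * (‖v‖ + 1) = 0 := by nlinarith
    rcases mul_eq_zero.1 h4 with h5 | h5
    · linarith
    · linarith [norm_nonneg v]
  let a : Sph n := ⟨v, by simpa using hvv⟩
  have ha : angle (a : E n) (p : E n) < τ := by
    have h2 : angle (a : E n) (p : E n) = Real.arccos c := by
      unfold InnerProductGeometry.angle
      show Real.arccos (inner ℝ v (p : E n) / (‖v‖ * ‖(p : E n)‖)) = _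
      rw [real_inner_comm, hpv, hvv, hp, mul_one, div_one]
    rw [h2, hc, ← Real.arcsin_eq_arccos hx0.le]
    exact (Real.arcsin_lt_iff_lt_sin' ⟨by linarith [Real.pi_pos], h1⟩).2 hcon
  have := h a ha
  rw [show ((a : Sph n) : E n) = v from rfl, hev] at this
  exact lt_irrefl _ this

/-- The extended distance functions satisfy the triangle inequality. -/
theorem ext_add {n : ℕ} (hn : 0 < n) {M : Type} [MetricSpace M] (bd : Sph n → M)
    (hS : ∀ x y : Sph n, angle (x : E n) (y : E n) ≤ dist (bd x) (bd y)) (a b : Sph n) (q : M) :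
    angle (a : E n) (b : E n) ≤ ext bd a q + ext bd b q := by
  have := TExt.sph_nonempty hn
  have h1 : angle (a : E n) (b : E n) - ext bd b q ≤ ext bd a q := by
    rw [show ext bd a q = ⨅ p : Sph n, (angle (a : E n) (p : E n) + dist q (bd p)) from rfl]
    apply le_ciInf
    intro p
    have h2 : angle (a : E n) (b : E n) - angle (a : E n) (p : E n) - dist q (bd p) ≤
        ext bd b q := by
      rw [show ext bd b q = ⨅ p : Sph n, (angle (b : E n) (p : E n) + dist q (bd p)) from rfl]
      apply le_ciInf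
      intro p'
      have h3 := hS p p'
      have h4 := dist_triangle_left (bd p) (bd p') q
      have h5 := angle_le_angle_add_angle (a : E n) (p : E n) (b : E n)
      have h6 := angle_le_angle_add_angle (p : E n) (p' : E n) (b : E n)
      rw [angle_comm (p' : E n) (b : E n)] at h6
      linarith
    linarith
  linarith

end Pool.Agent.H82.FD
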