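import Pool.Agent.H82.FD.Pol

set_option autoImplicit false

/-!
# First bound: odd profiles
-/

open MeasureTheory Metric Set Filter Topology InnerProductGeometry

namespace Pool.Agent.H82.FD

open Pool.Agent.H241R3.FV
open Pool.Agent.H241R3.FV.TBdry (cont_angle integrable_of_cont)

/-- Symmetry about `π / 2`. -/
theorem sym_int (k : ℝ → ℝ) (hk : Continuous k) (m : ℕ) :
    ∫ s in (0 : ℝ)..Real.pi, (k |Real.pi / 2 - s| * |Real.cos s|) * Real.sin s ^ m =
      2 * ∫ u in (0 : ℝ)..(Real.pi / 2), k u * Real.sin u * Real.cos u ^ m := by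
  have hc : Continuous fun s : ℝ => (k |Real.pi / 2 - s| * |Real.cos s|) * Real.sin s ^ m := by
    fun_prop
  rw [← intervalIntegral.integral_add_adjacent_intervals (b := Real.pi / 2)
    (hc.intervalIntegrable _ _) (hc.intervalIntegrable _ _)]
  have e1 : ∫ s in (0 : ℝ)..(Real.pi / 2), (k |Real.pi / 2 - s| * |Real.cos s|) * Real.sin s ^ m =
      ∫ u in (0 : ℝ)..(Real.pi / 2), k u * Real.sin u * Real.cos u ^ m := by
    have h := intervalIntegral.integral_comp_sub_left (a := 0) (b := Real.pi / 2)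
      (fun s : ℝ => (k |Real.pi / 2 - s| * |Real.cos s|) * Real.sin s ^ m) (Real.pi / 2)
    rw [sub_self, sub_zero] at h
    rw [← h]
    refine intervalIntegral.integral_congr fun u hu => ?_
    rw [uIcc_of_le (by positivity)] at hu
    have h0 : 0 ≤ Real.sin u := Real.sin_nonneg_of_nonneg_of_le_pi hu.1 (by linarith [hu.2, Real.pi_pos])
    simp only [sub_sub_cancel, Real.cos_pi_div_two_sub, Real.sin_pi_div_two_sub]
    rw [abs_of_nonneg hu.1, abs_of_nonneg h0]
  have e2 : ∫ s in (Real.pi / 2)..Real.pi, (k |Real.pi / 2 - s| * |Real.cos s|) * Real.sin s ^ m =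
      ∫ u in (0 : ℝ)..(Real.pi / 2), k u * Real.sin u * Real.cos u ^ m := by
    have h := intervalIntegral.integral_comp_add_left (a := 0) (b := Real.pi / 2)
      (fun s : ℝ => (k |Real.pi / 2 - s| * |Real.cos s|) * Real.sin s ^ m) (Real.pi / 2)
    rw [add_zero, add_halves] at h
    rw [← h]
    refine intervalIntegral.integral_congr fun u hu => ?_
    rw [uIcc_of_le (by positivity)] at hu
    have h0 : 0 ≤ Real.sin u := Real.sin_nonneg_of_nonneg_of_le_pi hu.1 (by linarith [hu.2, Real.pi_pos])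
    have e3 : Real.pi / 2 - (Real.pi / 2 + u) = -u := by ring
    have e4 : Real.cos (Real.pi / 2 + u) = -Real.sin u := by
      rw [add_comm, Real.cos_add_pi_div_two]
    have e5 : Real.sin (Real.pi / 2 + u) = Real.cos u := by
      rw [add_comm, Real.sin_add_pi_div_two]
    simp only [e3, e4, e5, abs_neg]
    rw [abs_of_nonneg hu.1, abs_of_nonneg h0]
  rw [e1, e2]
  ring

/-- The constant of a profile. -/
noncomputable def rr (d : ℕ) (φ : ℝ → ℝ) (t : ℝ) : ℝ :=
  2 * d * om d * ∫ u in (0 : ℝ)..(Real.pi / 2), φ (u - t) * Real.sin u * Real.cos u ^ (d - 1)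

theorem rr_eq (d : ℕ) (φ : ℝ → ℝ) (hφ : Continuous φ) (t : ℝ) :
    rr d φ t = d * om d * ∫ s in (0 : ℝ)..Real.pi,
      (φ (|Real.pi / 2 - s| - t) * |Real.cos s|) * Real.sin s ^ (d - 1) := by
  have h := sym_int (fun u => φ (u - t)) (by fun_prop) (d - 1)
  rw [h]
  unfold rr
  ring

/-- The pointwise inequality. -/
theorem pw (φ : ℝ → ℝ) (hmono : Monotone φ) (hodd : ∀ x, φ (-x) = -φ x) (s e t : ℝ)
    (hs0 : 0 ≤ s) (hs : s ≤ Real.pi) (he : |e - s| ≤ t) :
    φ (|Real.pi / 2 - s| - t) * |Real.cos s| ≤ -φ (e - Real.pi / 2) * Real.cos s := by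
  rw [abs_le] at he
  rcases le_total s (Real.pi / 2) with h | h
  · have hc : 0 ≤ Real.cos s := Real.cos_nonneg_of_neg_pi_div_two_le_of_le (by linarith [Real.pi_pos]) h
    rw [abs_of_nonneg hc, abs_of_nonneg (by linarith), ← hodd]
    exact mul_le_mul_of_nonneg_right (hmono (by linarith)) hc
  · have hc : Real.cos s ≤ 0 := by
      have : 0 ≤ Real.cos (Real.pi - s) :=
        Real.cos_nonneg_of_neg_pi_div_two_le_of_le (by linarith) (by linarith)
      rw [Real.cos_pi_sub] at this
      linarith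
    rw [abs_of_nonpos hc, abs_of_nonpos (by linarith)]
    have h1 : φ (-(Real.pi / 2 - s) - t) ≤ φ (e - Real.pi / 2) := hmono (by linarith)
    nlinarith

/-- The bound of a profile. -/
theorem profile_bound (d : ℕ) (hd : 1 ≤ d) (M : Type) [MetricSpace M] (S : Fill d M)
    (hS : S.NonShort) (htop : (CompactSpace M ∧ S.Triangulated) ∨ S.NoRetraction)
    (φ : ℝ → ℝ) (hmono : Monotone φ) (hodd : ∀ x, φ (-x) = -φ x)
    (hlip : ∀ x y, |φ x - φ y| ≤ |x - y|) (t : ℝ) (ht : 0 ≤ t) (hr0 : 0 ≤ rr d φ t)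
    (hl : 0 < rr d φ 0) :
    volume (ball (0 : E (d + 1)) 1) * ENNReal.ofReal ((rr d φ t / om (d + 1)) ^ (d + 1)) ≤
      deepVol S t := by
  have hφ : Continuous φ := by
    have : LipschitzWith 1 φ := LipschitzWith.of_dist_le_mul fun x y => by
      rw [Real.dist_eq, Real.dist_eq, NNReal.coe_one, one_mul]
      exact hlip x y
    exact this.continuous
  obtain ⟨fa, fb, fc⟩ := taskExt (d + 1) (Nat.succ_pos d) M S.bd hS
  have hom : 0 < om d := TConst.om_pos d
  have hd0 : (0 : ℝ) < d := by exact_mod_cast hd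
  have hbd : ∀ p : Sph (d + 1), ∫ x : Sph (d + 1),
      (-φ (angle (x : E (d + 1)) (p : E (d + 1)) - Real.pi / 2)) • (x : E (d + 1))
        ∂(sig (d + 1)) = rr d φ 0 • (p : E (d + 1)) := by
    intro p
    rw [VV_eq d hd (fun s => -φ (s - Real.pi / 2)) (by fun_prop) p, rr_eq d φ hφ 0]
    congr 2
    refine intervalIntegral.integral_congr fun s hs => ?_
    rw [uIcc_of_le Real.pi_pos.le] at hs
    simp only [sub_zero]
    congr 1
    rcases le_total s (Real.pi / 2) with h | h
    · have hc : 0 ≤ Real.cos s :=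
        Real.cos_nonneg_of_neg_pi_div_two_le_of_le (by linarith [hs.1, Real.pi_pos]) h
      rw [abs_of_nonneg hc, abs_of_nonneg (by linarith), ← hodd]
      congr 2
      ring
    · have hc : Real.cos s ≤ 0 := by
        have : 0 ≤ Real.cos (Real.pi - s) :=
          Real.cos_nonneg_of_neg_pi_div_two_le_of_le (by linarith [hs.2]) (by linarith)
        rw [Real.cos_pi_sub] at this
        linarith
      rw [abs_of_nonpos hc, abs_of_nonpos (by linarith)]
      have e : -(Real.pi / 2 - s) = s - Real.pi / 2 := by ring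
      rw [e]
      ring
  have hr : rr d φ t ≤ rr d φ 0 := by
    unfold rr
    refine mul_le_mul_of_nonneg_left ?_ (by positivity)
    refine intervalIntegral.integral_mono_on (by positivity) ?_ ?_ ?_
    · apply Continuous.intervalIntegrable; fun_prop
    · apply Continuous.intervalIntegrable; fun_prop
    · intro u hu
      have h0 : 0 ≤ Real.sin u :=
        Real.sin_nonneg_of_nonneg_of_le_pi hu.1 (by linarith [hu.2, Real.pi_pos])
      have h1 : 0 ≤ Real.cos u :=
        Real.cos_nonneg_of_neg_pi_div_two_le_of_le (by linarith [hu.1, Real.pi_pos]) hu.2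
      have h2 : φ (u - t) ≤ φ (u - 0) := hmono (by linarith)
      have h3 : 0 ≤ Real.sin u * Real.cos u ^ (d - 1) := by positivity
      nlinarith
  refine abs_bound d hd M S hS htop (fun x q => -φ (ext S.bd x q - Real.pi / 2)) ?_ ?_
    (rr d φ 0) (rr d φ t) t hl hr0 hr ?_ ?_
  · intro x q q'
    have h1 := hlip (ext S.bd x q - Real.pi / 2) (ext S.bd x q' - Real.pi / 2)
    have h2 := fa x q q'
    rw [neg_sub_neg, abs_sub_comm]
    refine h1.trans ?_
    rw [sub_sub_sub_cancel_right]
    exact h2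
  · intro x x' q
    have h1 := hlip (ext S.bd x q - Real.pi / 2) (ext S.bd x' q - Real.pi / 2)
    have h2 := fb x x' q
    rw [neg_sub_neg, abs_sub_comm]
    refine h1.trans ?_
    rw [sub_sub_sub_cancel_right]
    exact h2
  · intro p
    rw [← hbd p]
    congr 1
    ext1 x
    rw [fc x p]
  · intro q hq
    obtain ⟨_, ⟨p, rfl⟩, hp⟩ := (infDist_lt_iff (range_nonempty_iff_nonempty.mpr
      (TExt.sph_nonempty (Nat.succ_pos d)))).1 hq
    set Φ : E (d + 1) := ∫ x : Sph (d + 1), (-φ (ext S.bd x q - Real.pi / 2)) • (x : E (d + 1))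
      ∂(sig (d + 1)) with hΦ
    have hcx : Continuous fun x : Sph (d + 1) => ext S.bd x q :=
      cont_of_angle _ (fun x x' => fb x x' q)
    have hint : Integrable (fun x : Sph (d + 1) => (-φ (ext S.bd x q - Real.pi / 2)) •
        (x : E (d + 1))) (sig (d + 1)) := by
      refine integrable_of_cont _ ?_
      have h1 : Continuous fun x : Sph (d + 1) => (-φ (ext S.bd x q - Real.pi / 2)) := by
        fun_prop
      exact h1.smul continuous_subtype_val
    have h1 : inner ℝ (p : E (d + 1)) Φ =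
        ∫ x : Sph (d + 1), (-φ (ext S.bd x q - Real.pi / 2)) *
          Real.cos (angle (x : E (d + 1)) (p : E (d + 1))) ∂(sig (d + 1)) := by
      rw [hΦ, ← integral_inner hint]
      congr 1
      ext x : 1
      rw [inner_smul_right, ← cos_ang]
    have h2 : rr d φ t ≤ inner ℝ (p : E (d + 1)) Φ := by
      rw [h1, rr_eq d φ hφ t, ← polar d hd
        (fun s => φ (|Real.pi / 2 - s| - t) * |Real.cos s|) (by fun_prop) p]
      refine integral_mono ?_ ?_ ?_
      · refine integrable_of_cont _ ?_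
        have := cont_angle p
        fun_prop
      · refine integrable_of_cont _ ?_
        have := cont_angle p
        fun_prop
      · intro x
        refine pw φ hmono hodd _ _ t (angle_nonneg _ _) (angle_le_pi _ _) ?_
        have h3 := fa x q (S.bd p)
        rw [fc x p] at h3
        exact h3.trans hp.le
    calc rr d φ t ≤ inner ℝ (p : E (d + 1)) Φ := h2
      _ ≤ ‖(p : E (d + 1))‖ * ‖Φ‖ := real_inner_le_norm _ _
      _ = ‖Φ‖ := by rw [norm_sph, one_mul]

end Pool.Agent.H82.FD
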