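import Pool.Agent.H82.FD.Abs

set_option autoImplicit false

/-!
# Integrals of functions of the angle over the sphere
-/

open MeasureTheory Metric Set Filter Topology InnerProductGeometry

namespace Pool.Agent.H82.FD

open Pool.Agent.H241R3.FV
open Pool.Agent.H241R3.FV.TBdry (cont_angle integrable_of_cont rot_cont rot_emb angle_rot int_rot
  exists_rot)

/-- The integral of a function of the angle to any point. -/
theorem polar (d : ℕ) (hd : 1 ≤ d) (h : ℝ → ℝ) (hh : Continuous h) (p : Sph (d + 1)) :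
    ∫ x : Sph (d + 1), h (angle (x : E (d + 1)) (p : E (d + 1))) ∂(sig (d + 1)) =
      d * om d * ∫ t in (0 : ℝ)..Real.pi, h t * Real.sin t ^ (d - 1) := by
  obtain ⟨R, hR⟩ := exists_rot p
  rw [← TPolar.taskPolar d hd h hh]
  rw [← int_rot (Nat.succ_pos d) TInv.taskInv R (fun x : Sph (d + 1) =>
        h (angle (x : E (d + 1)) (EuclideanSpace.single 0 1)))]
  congr 1
  ext x : 1
  have h3 : angle ((rot R x : Sph (d + 1)) : E (d + 1)) (EuclideanSpace.single 0 1) =
      angle (x : E (d + 1)) (p : E (d + 1)) := by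
    rw [← angle_rot R x p, ← hR]
    rfl
  rw [h3]

/-- The vector field of a function of the angle. -/
noncomputable def VV {n : ℕ} (h : ℝ → ℝ) (p : Sph n) : E n :=
  ∫ x : Sph n, h (angle (x : E n) (p : E n)) • (x : E n) ∂(sig n)

theorem VV_rot {n : ℕ} (hn : 0 < n) (h : ℝ → ℝ) (R : E n ≃ₗᵢ[ℝ] E n) (p : Sph n) :
    R (VV h p) = VV h (rot R p) := by
  unfold VV
  rw [← int_rot hn TInv.taskInv R
    (fun x : Sph n => h (angle (x : E n) ((rot R p : Sph n) : E n)) • (x : E n))]
  have h1 : R (∫ x : Sph n, h (angle (x : E n) (p : E n)) • (x : E n) ∂(sig n)) =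
      ∫ x : Sph n, R (h (angle (x : E n) (p : E n)) • (x : E n)) ∂(sig n) :=
    (ContinuousLinearEquiv.integral_comp_comm R.toContinuousLinearEquiv _).symm
  rw [h1]
  congr 1
  ext x : 1
  rw [angle_rot]
  simp [rot]

theorem VV_mem {n : ℕ} (hn : 0 < n) (h : ℝ → ℝ) (p : Sph n) : VV h p ∈ (ℝ ∙ (p : E n)) := by
  have h' := VV_rot hn h ((ℝ ∙ (p : E n)).reflection) p
  have h2 : rot ((ℝ ∙ (p : E n)).reflection) p = p := by
    apply Subtype.ext
    simp only [rot]
    exact Submodule.reflection_mem_subspace_eq_self (Submodule.mem_span_singleton_self _)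
  rw [h2] at h'
  exact (Submodule.reflection_eq_self_iff _).1 h'

theorem cos_ang {n : ℕ} (x p : Sph n) :
    Real.cos (angle (x : E n) (p : E n)) = inner ℝ (p : E n) (x : E n) := by
  rw [InnerProductGeometry.cos_angle, norm_sph, norm_sph, mul_one, div_one, real_inner_comm]

theorem inner_VV {n : ℕ} (h : ℝ → ℝ) (hh : Continuous h) (p : Sph n) :
    inner ℝ (p : E n) (VV h p) = ∫ x : Sph n, (fun t : ℝ => h t * Real.cos t)
      (angle (x : E n) (p : E n)) ∂(sig n) := by
  unfold VV
  have hint : Integrable (fun x : Sph n => h (angle (x : E n) (p : E n)) • (x : E n)) (sig n) :=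
    integrable_of_cont _ ((hh.comp (cont_angle p)).smul continuous_subtype_val)
  rw [← integral_inner hint]
  congr 1
  ext x : 1
  rw [inner_smul_right, ← cos_ang]

/-- The integral of `h(angle x p) x` over the sphere. -/
theorem VV_eq (d : ℕ) (hd : 1 ≤ d) (h : ℝ → ℝ) (hh : Continuous h) (p : Sph (d + 1)) :
    ∫ x : Sph (d + 1), h (angle (x : E (d + 1)) (p : E (d + 1))) • (x : E (d + 1))
      ∂(sig (d + 1)) =
    (d * om d * ∫ t in (0 : ℝ)..Real.pi, h t * Real.cos t * Real.sin t ^ (d - 1)) •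
      (p : E (d + 1)) := by
  change VV h p = _
  obtain ⟨c, hc⟩ := Submodule.mem_span_singleton.1 (VV_mem (Nat.succ_pos d) h p)
  have hin : inner ℝ (p : E (d + 1)) (VV h p) = c := by
    rw [← hc, inner_smul_right, real_inner_self_eq_norm_sq, norm_sph]
    simp
  rw [inner_VV h hh p, polar d hd (fun t => h t * Real.cos t) (by fun_prop) p] at hin
  rw [← hc, ← hin]

theorem om_succ (d : ℕ) (hd : 1 ≤ d) :
    om (d + 1) = om d * ∫ t in (0 : ℝ)..Real.pi, Real.sin t ^ (d + 1) := by
  obtain ⟨h1, h2, -, h4⟩ := TConst.taskConst TPolar.taskPolar d hd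
  have hI2 : 0 < ∫ t in (0 : ℝ)..Real.pi, Real.sin t ^ (d + 1) := integral_sin_pow_pos _
  have hI1 : 0 < ∫ t in (0 : ℝ)..Real.pi, Real.sin t ^ d := integral_sin_pow_pos _
  unfold lam at h4
  simp only [Nat.add_sub_cancel] at h4
  rw [div_eq_div_iff h1.ne' hI2.ne'] at h4
  have h5 : (∫ t in (0 : ℝ)..Real.pi, Real.sin t ^ d) *
      (om d * ∫ t in (0 : ℝ)..Real.pi, Real.sin t ^ (d + 1)) =
      (∫ t in (0 : ℝ)..Real.pi, Real.sin t ^ d) * om (d + 1) := by
    linarith
  exact (mul_left_cancel₀ hI1.ne' h5).symm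

end Pool.Agent.H82.FD
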