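import Pool.Agent.H82.FD.One

set_option autoImplicit false

/-!
# The profiles with a soft threshold
-/

open MeasureTheory Metric Set Filter Topology InnerProductGeometry

namespace Pool.Agent.H82.FD

open Pool.Agent.H241R3.FV

/-- The profile with threshold `s`. -/
noncomputable def soft (s x : ℝ) : ℝ := max (x - s) 0 + min (x + s) 0

theorem soft_mono (s : ℝ) : Monotone (soft s) := by
  intro x y h
  unfold soft
  exact add_le_add (max_le_max (by linarith) le_rfl) (min_le_min (by linarith) le_rfl)

theorem soft_odd (s x : ℝ) : soft s (-x) = -soft s x := by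
  unfold soft
  have e1 : -x - s = -(x + s) := by ring
  have e2 : -x + s = -(x - s) := by ring
  rw [e1, e2]
  have h1 : max (-(x + s)) 0 = -min (x + s) 0 := by
    rcases le_total (x + s) 0 with h | h
    · rw [max_eq_left (by linarith), min_eq_left h]
    · rw [max_eq_right (by linarith), min_eq_right h]; simp
  have h2 : min (-(x - s)) 0 = -max (x - s) 0 := by
    rcases le_total (x - s) 0 with h | h
    · rw [min_eq_right (by linarith), max_eq_right h]; simp
    · rw [min_eq_left (by linarith), max_eq_left h]
  rw [h1, h2]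
  ring

theorem soft_lip (s : ℝ) (hs : 0 ≤ s) (x y : ℝ) : |soft s x - soft s y| ≤ |x - y| := by
  -- enough for x ≥ y
  have key : ∀ x y : ℝ, y ≤ x → soft s x - soft s y ≤ x - y := by
    intro x y h
    unfold soft
    rcases le_total (x - s) 0 with h1 | h1 <;> rcases le_total (y - s) 0 with h2 | h2 <;>
      rcases le_total (x + s) 0 with h3 | h3 <;> rcases le_total (y + s) 0 with h4 | h4 <;>
      simp only [max_eq_left, max_eq_right, min_eq_left, min_eq_right, h1, h2, h3, h4] <;>
      linarith
  rcases le_total y x with h | h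
  · rw [abs_of_nonneg (sub_nonneg.mpr (soft_mono s h)), abs_of_nonneg (by linarith)]
    exact key x y h
  · rw [abs_sub_comm, abs_sub_comm x y,
      abs_of_nonneg (sub_nonneg.mpr (soft_mono s h)), abs_of_nonneg (by linarith)]
    exact key y x h

theorem soft_cont (s : ℝ) : Continuous (soft s) := by
  unfold soft
  fun_prop

theorem by_parts (d : ℕ) (c a b : ℝ) :
    (d : ℝ) * ∫ u in a..b, (u - c) * Real.sin u * Real.cos u ^ (d - 1) =
      (a - c) * Real.cos a ^ d - (b - c) * Real.cos b ^ d + ∫ u in a..b, Real.cos u ^ d := by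
  have h1 : ∫ u in a..b,
      (-(Real.cos u ^ d) + (d : ℝ) * ((u - c) * Real.sin u * Real.cos u ^ (d - 1))) =
      (-(b - c) * Real.cos b ^ d) - (-(a - c) * Real.cos a ^ d) := by
    have h2 : ∀ t ∈ Set.uIcc a b, HasDerivAt (fun u : ℝ => -(u - c) * Real.cos u ^ d)
        (-(Real.cos t ^ d) + (d : ℝ) * ((t - c) * Real.sin t * Real.cos t ^ (d - 1))) t := by
      intro t _
      have h3 := (((hasDerivAt_id t).sub_const c).neg).mul ((Real.hasDerivAt_cos t).pow d)
      refine (h3.congr_deriv ?_)
      show -1 * Real.cos t ^ d + -(t - c) * (d * Real.cos t ^ (d - 1) * -Real.sin t) = _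
      ring
    rw [intervalIntegral.integral_eq_sub_of_hasDerivAt h2]
    apply Continuous.intervalIntegrable
    fun_prop
  rw [intervalIntegral.integral_add, intervalIntegral.integral_const_mul,
    intervalIntegral.integral_neg] at h1
  · linarith
  · apply Continuous.intervalIntegrable
    fun_prop
  · apply Continuous.intervalIntegrable
    fun_prop

/-- The constant for the threshold `s`. -/
theorem rr_soft (d : ℕ) (hd : 1 ≤ d) (s t : ℝ) (hs : 0 ≤ s) (hst : s ≤ t)
    (h2 : t + s ≤ Real.pi / 2) :
    rr d (soft s) t = om d * (2 * ((∫ u in (t + s)..(Real.pi / 2), Real.cos u ^ d) +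
      (∫ u in (0 : ℝ)..(t - s), Real.cos u ^ d) - (t - s))) := by
  have e1 : ∫ u in (0 : ℝ)..(Real.pi / 2), soft s (u - t) * Real.sin u * Real.cos u ^ (d - 1) =
      (∫ u in (t + s)..(Real.pi / 2), (u - (t + s)) * Real.sin u * Real.cos u ^ (d - 1)) +
      ∫ u in (0 : ℝ)..(t - s), (u - (t - s)) * Real.sin u * Real.cos u ^ (d - 1) := by
    have hc : Continuous fun u : ℝ => soft s (u - t) * Real.sin u * Real.cos u ^ (d - 1) := by
      have := soft_cont s
      fun_prop
    rw [← intervalIntegral.integral_add_adjacent_intervals (b := t - s)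
      (hc.intervalIntegrable _ _) (hc.intervalIntegrable _ _),
      ← intervalIntegral.integral_add_adjacent_intervals (a := t - s) (b := t + s)
      (hc.intervalIntegrable _ _) (hc.intervalIntegrable _ _)]
    have a1 : ∫ u in (0 : ℝ)..(t - s), soft s (u - t) * Real.sin u * Real.cos u ^ (d - 1) =
        ∫ u in (0 : ℝ)..(t - s), (u - (t - s)) * Real.sin u * Real.cos u ^ (d - 1) := by
      refine intervalIntegral.integral_congr fun u hu => ?_
      rw [uIcc_of_le (by linarith)] at hu
      have : soft s (u - t) = u - (t - s) := by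
        unfold soft
        rw [max_eq_right (by linarith [hu.2]), min_eq_left (by linarith [hu.2])]
        ring
      simp only [this]
    have a2 : ∫ u in (t - s)..(t + s), soft s (u - t) * Real.sin u * Real.cos u ^ (d - 1) = 0 := by
      rw [← intervalIntegral.integral_zero (a := t - s) (b := t + s)]
      refine intervalIntegral.integral_congr fun u hu => ?_
      rw [uIcc_of_le (by linarith)] at hu
      have : soft s (u - t) = 0 := by
        unfold soft
        rw [max_eq_right (by linarith [hu.2]), min_eq_right (by linarith [hu.1])]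
        ring
      simp only [this]
      ring
    have a3 : ∫ u in (t + s)..(Real.pi / 2), soft s (u - t) * Real.sin u * Real.cos u ^ (d - 1) =
        ∫ u in (t + s)..(Real.pi / 2), (u - (t + s)) * Real.sin u * Real.cos u ^ (d - 1) := by
      refine intervalIntegral.integral_congr fun u hu => ?_
      rw [uIcc_of_le h2] at hu
      have : soft s (u - t) = u - (t + s) := by
        unfold soft
        rw [max_eq_left (by linarith [hu.1]), min_eq_right (by linarith [hu.1])]
        ring
      simp only [this]
    rw [a1, a2, a3]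
    ring
  have b1 := by_parts d (t + s) (t + s) (Real.pi / 2)
  have b2 := by_parts d (t - s) 0 (t - s)
  have hd0 : d ≠ 0 := by omega
  rw [Real.cos_pi_div_two, zero_pow hd0, sub_self] at b1
  rw [Real.cos_zero, one_pow, sub_self] at b2
  unfold rr
  rw [e1]
  have : 2 * (d : ℝ) * om d * ((∫ u in (t + s)..(Real.pi / 2),
      (u - (t + s)) * Real.sin u * Real.cos u ^ (d - 1)) +
      ∫ u in (0 : ℝ)..(t - s), (u - (t - s)) * Real.sin u * Real.cos u ^ (d - 1)) =
      om d * (2 * ((d : ℝ) * (∫ u in (t + s)..(Real.pi / 2),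
      (u - (t + s)) * Real.sin u * Real.cos u ^ (d - 1)) +
      (d : ℝ) * ∫ u in (0 : ℝ)..(t - s), (u - (t - s)) * Real.sin u * Real.cos u ^ (d - 1))) := by
    ring
  rw [this, b1, b2]
  ring

/-- The first bound. -/
theorem first (d : ℕ) (hd : 1 ≤ d) (M : Type) [MetricSpace M] (S : Fill d M)
    (hS : S.NonShort) (htop : (CompactSpace M ∧ S.Triangulated) ∨ S.NoRetraction)
    (s t : ℝ) (hs : 0 ≤ s) (hst : s ≤ t) (h2 : t + s ≤ Real.pi / 2) :
    volume (ball (0 : E (d + 1)) 1) * ENNReal.ofReal
      (2 * ((∫ u in (t + s)..(Real.pi / 2), Real.cos u ^ d) +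
        (∫ u in (0 : ℝ)..(t - s), Real.cos u ^ d) - (t - s)) /
        ∫ u in (0 : ℝ)..Real.pi, Real.sin u ^ (d + 1)) ^ (d + 1) ≤ deepVol S t := by
  have hI : 0 < ∫ u in (0 : ℝ)..Real.pi, Real.sin u ^ (d + 1) := integral_sin_pow_pos _
  have hom : 0 < om d := TConst.om_pos d
  set c : ℝ := 2 * ((∫ u in (t + s)..(Real.pi / 2), Real.cos u ^ d) +
        (∫ u in (0 : ℝ)..(t - s), Real.cos u ^ d) - (t - s)) with hc
  rcases le_or_gt c 0 with h0 | h0
  · rw [ENNReal.ofReal_of_nonpos (div_nonpos_of_nonpos_of_nonneg h0 hI.le),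
      zero_pow (Nat.succ_ne_zero d), mul_zero]
    exact zero_le
  · have e := rr_soft d hd s t hs hst h2
    rw [← hc] at e
    have hr0 : 0 < rr d (soft s) t := by rw [e]; positivity
    have hl : 0 < rr d (soft s) 0 := by
      refine lt_of_lt_of_le hr0 ?_
      unfold rr
      refine mul_le_mul_of_nonneg_left ?_ (by positivity)
      have hsc := soft_cont s
      refine intervalIntegral.integral_mono_on (by positivity) ?_ ?_ ?_
      · apply Continuous.intervalIntegrable; fun_prop
      · apply Continuous.intervalIntegrable; fun_prop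
      · intro u hu
        have h0 : 0 ≤ Real.sin u :=
          Real.sin_nonneg_of_nonneg_of_le_pi hu.1 (by linarith [hu.2, Real.pi_pos])
        have h1 : 0 ≤ Real.cos u :=
          Real.cos_nonneg_of_neg_pi_div_two_le_of_le (by linarith [hu.1, Real.pi_pos]) hu.2
        have h2 : soft s (u - t) ≤ soft s (u - 0) := soft_mono s (by linarith)
        have h3 : 0 ≤ Real.sin u * Real.cos u ^ (d - 1) := by positivity
        nlinarith
    have h := profile_bound d hd M S hS htop (soft s) (soft_mono s) (soft_odd s)
      (soft_lip s hs) t (hs.trans hst) hr0.le hl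
    have e2 : rr d (soft s) t / om (d + 1) =
        c / ∫ u in (0 : ℝ)..Real.pi, Real.sin u ^ (d + 1) := by
      rw [e, om_succ d hd]
      field_simp
    rw [e2, ENNReal.ofReal_pow (by positivity)] at h
    exact h

end Pool.Agent.H82.FD
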