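import Pool.Agent.H82.FD.Jung

set_option autoImplicit false

/-!
# The second bound
-/

open MeasureTheory Metric Set Filter Topology InnerProductGeometry

namespace Pool.Agent.H82.FD

open Pool.Agent.H241R3.FV
open Pool.Agent.H241R3.FV.TBdry (cont_angle integrable_of_cont)

theorem by_parts' (d : ℕ) (c a b : ℝ) :
    (d : ℝ) * ∫ s in a..b, (c - s) * Real.cos s * Real.sin s ^ (d - 1) =
      (c - b) * Real.sin b ^ d - (c - a) * Real.sin a ^ d + ∫ s in a..b, Real.sin s ^ d := by
  have h1 : ∫ s in a..b,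
      (-(Real.sin s ^ d) + (d : ℝ) * ((c - s) * Real.cos s * Real.sin s ^ (d - 1))) =
      ((c - b) * Real.sin b ^ d) - ((c - a) * Real.sin a ^ d) := by
    have h2 : ∀ t ∈ Set.uIcc a b, HasDerivAt (fun s : ℝ => (c - s) * Real.sin s ^ d)
        (-(Real.sin t ^ d) + (d : ℝ) * ((c - t) * Real.cos t * Real.sin t ^ (d - 1))) t := by
      intro t _
      have h3 := ((hasDerivAt_id t).const_sub c).mul ((Real.hasDerivAt_sin t).pow d)
      refine (h3.congr_deriv ?_)
      show -1 * Real.sin t ^ d + (c - t) * (d * Real.sin t ^ (d - 1) * Real.cos t) = _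
      ring
    rw [intervalIntegral.integral_eq_sub_of_hasDerivAt h2]
    apply Continuous.intervalIntegrable
    fun_prop
  rw [intervalIntegral.integral_add, intervalIntegral.integral_const_mul,
    intervalIntegral.integral_neg] at h1
  · linarith
  · apply Continuous.intervalIntegrable
    fun_prop
  · apply Continuous.intervalIntegrable
    fun_prop

/-- The vector of the profile `(u - s)⁺`. -/
theorem cap_vec (d : ℕ) (hd : 1 ≤ d) (u : ℝ) (hu0 : 0 ≤ u) (hu : u ≤ Real.pi)
    (p : Sph (d + 1)) :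
    ∫ x : Sph (d + 1), (max (u - angle (x : E (d + 1)) (p : E (d + 1))) 0) • (x : E (d + 1))
      ∂(sig (d + 1)) = (om d * ∫ s in (0 : ℝ)..u, Real.sin s ^ d) • (p : E (d + 1)) := by
  rw [VV_eq d hd (fun s => max (u - s) 0) (by fun_prop) p]
  congr 1
  have hc : Continuous fun s : ℝ => max (u - s) 0 * Real.cos s * Real.sin s ^ (d - 1) := by
    fun_prop
  rw [← intervalIntegral.integral_add_adjacent_intervals (b := u)
    (hc.intervalIntegrable _ _) (hc.intervalIntegrable _ _)]
  have e1 : ∫ s in (0 : ℝ)..u, max (u - s) 0 * Real.cos s * Real.sin s ^ (d - 1) =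
      ∫ s in (0 : ℝ)..u, (u - s) * Real.cos s * Real.sin s ^ (d - 1) := by
    refine intervalIntegral.integral_congr fun s hs => ?_
    rw [uIcc_of_le hu0] at hs
    have : max (u - s) 0 = u - s := max_eq_left (sub_nonneg.mpr hs.2)
    show max (u - s) 0 * Real.cos s * Real.sin s ^ (d - 1) = _
    rw [this]
  have e2 : ∫ s in u..Real.pi, max (u - s) 0 * Real.cos s * Real.sin s ^ (d - 1) = 0 := by
    have e3 : ∫ s in u..Real.pi, max (u - s) 0 * Real.cos s * Real.sin s ^ (d - 1) =
        ∫ s in u..Real.pi, (0 : ℝ) := by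
      refine intervalIntegral.integral_congr fun s hs => ?_
      rw [uIcc_of_le hu] at hs
      have : max (u - s) 0 = 0 := max_eq_right (sub_nonpos.mpr hs.1)
      show max (u - s) 0 * Real.cos s * Real.sin s ^ (d - 1) = 0
      rw [this]
      ring
    rw [e3, intervalIntegral.integral_zero]
  rw [e1, e2, add_zero]
  have h := by_parts' d u 0 u
  have hd0 : d ≠ 0 := by omega
  rw [Real.sin_zero, zero_pow hd0, sub_self] at h
  calc (d : ℝ) * om d * ∫ s in (0 : ℝ)..u, (u - s) * Real.cos s * Real.sin s ^ (d - 1)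
      = om d * (d * ∫ s in (0 : ℝ)..u, (u - s) * Real.cos s * Real.sin s ^ (d - 1)) := by ring
    _ = _ := by rw [h]; ring

/-- The direction of the set of small values. -/
theorem direction (d : ℕ) (M : Type) [MetricSpace M] (S : Fill d M)
    (hS : S.NonShort) (u : ℝ) (hu : 2 * u ≤ Real.pi)
    (hu2 : -1 / ((d + 1 : ℕ) : ℝ) < Real.cos (2 * u)) (q : M) (p : Sph (d + 1))
    (hpq : dist q (S.bd p) < u) :
    ∃ e : E (d + 1), ‖e‖ = 1 ∧ ∀ a : Sph (d + 1), ext S.bd a q ≤ u →
      0 < inner ℝ e (a : E (d + 1)) := by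
  obtain ⟨fa, fb, fc⟩ := taskExt (d + 1) (Nat.succ_pos d) M S.bd hS
  let K : Set (E (d + 1)) := (fun a : Sph (d + 1) => (a : E (d + 1))) '' {a | ext S.bd a q ≤ u}
  have hδ : 0 < (((d + 1 : ℕ) : ℝ) * Real.cos (2 * u) + 1) / (((d + 1 : ℕ) : ℝ) + 1) := by
    have hd1 : (0 : ℝ) < ((d + 1 : ℕ) : ℝ) := by positivity
    rw [div_lt_iff₀ hd1] at hu2
    apply div_pos
    · linarith
    · positivity
  have h0 : ∀ x ∈ convexHull ℝ K,
      (((d + 1 : ℕ) : ℝ) * Real.cos (2 * u) + 1) / (((d + 1 : ℕ) : ℝ) + 1) ≤ ‖x‖ ^ 2 := by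
    refine jung (d + 1) K (Real.cos (2 * u)) ?_ ?_
    · rintro _ ⟨a, -, rfl⟩
      exact norm_sph a
    · rintro _ ⟨a, ha, rfl⟩ _ ⟨b, hb, rfl⟩
      have h1 := ext_add (Nat.succ_pos d) S.bd hS a b q
      have ha' : ext S.bd a q ≤ u := ha
      have hb' : ext S.bd b q ≤ u := hb
      have h2 : angle (a : E (d + 1)) (b : E (d + 1)) ≤ 2 * u := by linarith
      have h3 := cos_ang b a
      rw [angle_comm] at h3
      show Real.cos (2 * u) ≤ inner ℝ (a : E (d + 1)) (b : E (d + 1))
      rw [← h3]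
      exact Real.cos_le_cos_of_nonneg_of_le_pi (angle_nonneg _ _) hu h2
  have h0' : (0 : E (d + 1)) ∉ closure (convexHull ℝ K) := by
    intro hmem
    have hcl : IsClosed {x : E (d + 1) |
        (((d + 1 : ℕ) : ℝ) * Real.cos (2 * u) + 1) / (((d + 1 : ℕ) : ℝ) + 1) ≤ ‖x‖ ^ 2} :=
      isClosed_le continuous_const (by fun_prop)
    have h1 := closure_minimal (s := convexHull ℝ K) (fun x hx => h0 x hx) hcl hmem
    have h2 : (((d + 1 : ℕ) : ℝ) * Real.cos (2 * u) + 1) / (((d + 1 : ℕ) : ℝ) + 1) ≤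
        ‖(0 : E (d + 1))‖ ^ 2 := h1
    rw [norm_zero] at h2
    linarith
  obtain ⟨f, r, hf0, hf⟩ := geometric_hahn_banach_point_closed
    (convex_convexHull ℝ K).closure isClosed_closure h0'
  rw [map_zero] at hf0
  set e₀ : E (d + 1) := (InnerProductSpace.toDual ℝ (E (d + 1))).symm f with he₀
  have hinner : ∀ v, inner ℝ e₀ v = f v := fun v =>
    InnerProductSpace.toDual_symm_apply
  have hpos : ∀ a : Sph (d + 1), ext S.bd a q ≤ u → 0 < inner ℝ e₀ (a : E (d + 1)) := by
    intro a ha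
    rw [hinner]
    exact hf0.trans (hf _ (subset_closure (subset_convexHull ℝ K ⟨a, ha, rfl⟩)))
  have hp : ext S.bd p q ≤ u := by
    have h1 := fa p q (S.bd p)
    have hp0 : (p : E (d + 1)) ≠ 0 := by
      intro h3
      have := norm_sph p
      rw [h3, norm_zero] at this
      exact zero_ne_one this
    rw [fc p p, angle_self hp0, sub_zero] at h1
    exact (le_abs_self _).trans (h1.trans hpq.le)
  have hne : e₀ ≠ 0 := by
    intro h1
    have := hpos p hp
    rw [h1, inner_zero_left] at this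
    exact lt_irrefl _ this
  have hn0 : 0 < ‖e₀‖ := norm_pos_iff.mpr hne
  refine ⟨‖e₀‖⁻¹ • e₀, ?_, ?_⟩
  · rw [norm_smul, norm_inv, norm_norm, inv_mul_cancel₀ hn0.ne']
  · intro a ha
    rw [inner_smul_left]
    simp only [map_inv₀, conj_trivial]
    exact mul_pos (inv_pos.mpr hn0) (hpos a ha)

/-- The second bound, for a parameter `u` below the threshold. -/
theorem second_u (d : ℕ) (hd : 1 ≤ d) (M : Type) [MetricSpace M] (S : Fill d M)
    (hS : S.NonShort) (htop : (CompactSpace M ∧ S.Triangulated) ∨ S.NoRetraction)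
    (t u : ℝ) (ht0 : 0 ≤ t) (htu : t < u) (hu : 2 * u ≤ Real.pi)
    (hu2 : -1 / ((d + 1 : ℕ) : ℝ) < Real.cos (2 * u)) :
    volume (ball (0 : E (d + 1)) 1) * ENNReal.ofReal
      ((Real.sin (u - t) * (∫ s in (0 : ℝ)..(u - t), Real.sin s ^ d) /
        ∫ s in (0 : ℝ)..Real.pi, Real.sin s ^ (d + 1)) ^ (d + 1)) ≤ deepVol S t := by
  obtain ⟨fa, fb, fc⟩ := taskExt (d + 1) (Nat.succ_pos d) M S.bd hS
  have hpi := Real.pi_pos
  have hu0 : 0 < u := lt_of_le_of_lt ht0 htu
  set τ : ℝ := u - t with hτ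
  have hτ0 : 0 < τ := by linarith
  have hτ1 : τ ≤ Real.pi / 2 := by linarith
  have hom : 0 < om d := TConst.om_pos d
  have hsin : ∀ b : ℝ, 0 ≤ b → b ≤ Real.pi → 0 ≤ ∫ s in (0 : ℝ)..b, Real.sin s ^ d := by
    intro b hb hb'
    refine intervalIntegral.integral_nonneg hb fun s hs => ?_
    exact pow_nonneg (Real.sin_nonneg_of_nonneg_of_le_pi hs.1 (hs.2.trans hb')) _
  have hJτ : 0 < ∫ s in (0 : ℝ)..τ, Real.sin s ^ d := by
    refine intervalIntegral.intervalIntegral_pos_of_pos_on ?_ ?_ hτ0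
    · apply Continuous.intervalIntegrable; fun_prop
    · intro s hs
      exact pow_pos (Real.sin_pos_of_pos_of_lt_pi hs.1 (by linarith [hs.2])) _
  have hJu : ∫ s in (0 : ℝ)..τ, Real.sin s ^ d ≤ ∫ s in (0 : ℝ)..u, Real.sin s ^ d := by
    have hc : Continuous fun s : ℝ => Real.sin s ^ d := by fun_prop
    rw [← intervalIntegral.integral_add_adjacent_intervals (a := 0) (b := τ) (c := u)
      (hc.intervalIntegrable _ _) (hc.intervalIntegrable _ _)]
    have : 0 ≤ ∫ s in τ..u, Real.sin s ^ d := by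
      refine intervalIntegral.integral_nonneg (by linarith) fun s hs => ?_
      exact pow_nonneg (Real.sin_nonneg_of_nonneg_of_le_pi (by linarith [hs.1])
        (by linarith [hs.2])) _
    linarith
  have hsτ : 0 < Real.sin τ := Real.sin_pos_of_pos_of_lt_pi hτ0 (by linarith)
  set l : ℝ := om d * ∫ s in (0 : ℝ)..u, Real.sin s ^ d with hl
  set r : ℝ := Real.sin τ * (om d * ∫ s in (0 : ℝ)..τ, Real.sin s ^ d) with hr
  have hl0 : 0 < l := mul_pos hom (lt_of_lt_of_le hJτ hJu)
  have hr0 : 0 ≤ r := by positivity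
  have hrl : r ≤ l := by
    have h1 : om d * ∫ s in (0 : ℝ)..τ, Real.sin s ^ d ≤ l :=
      mul_le_mul_of_nonneg_left hJu hom.le
    have h2 : 0 ≤ om d * ∫ s in (0 : ℝ)..τ, Real.sin s ^ d := by positivity
    have h3 := Real.sin_le_one τ
    nlinarith
  have key := abs_bound d hd M S hS htop (fun x q => max (u - ext S.bd x q) 0) ?_ ?_ l r t
    hl0 hr0 hrl ?_ ?_
  · have e2 : r / om (d + 1) = Real.sin τ * (∫ s in (0 : ℝ)..τ, Real.sin s ^ d) /
        ∫ s in (0 : ℝ)..Real.pi, Real.sin s ^ (d + 1) := by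
      rw [hr, om_succ d hd]
      have hI : 0 < ∫ u in (0 : ℝ)..Real.pi, Real.sin u ^ (d + 1) := integral_sin_pow_pos _
      field_simp
    rw [e2] at key
    exact key
  · intro x q q'
    refine (abs_max_sub_max_le_abs _ _ _).trans ?_
    rw [sub_sub_sub_cancel_left, abs_sub_comm]
    exact fa x q q'
  · intro x x' q
    refine (abs_max_sub_max_le_abs _ _ _).trans ?_
    rw [sub_sub_sub_cancel_left, abs_sub_comm]
    exact fb x x' q
  · intro p
    rw [hl, ← cap_vec d hd u hu0.le (by linarith) p]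
    congr 1
    ext1 x
    rw [fc x p]
  · intro q hq
    obtain ⟨_, ⟨p, rfl⟩, hp⟩ := (infDist_lt_iff (range_nonempty_iff_nonempty.mpr
      (TExt.sph_nonempty (Nat.succ_pos d)))).1 hq
    obtain ⟨e, he, hepos⟩ := direction d M S hS u hu hu2 q p (hp.trans htu)
    have hle : ∀ a : Sph (d + 1), ext S.bd a q ≤ angle (a : E (d + 1)) (p : E (d + 1)) + t := by
      intro a
      have h1 := fa a q (S.bd p)
      rw [fc a p] at h1
      have h2 := (le_abs_self _).trans h1
      linarith
    have hpe : Real.sin τ ≤ inner ℝ e (p : E (d + 1)) := by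
      refine margin p e he τ hτ0 hτ1 fun a ha => hepos a ?_
      have := hle a
      linarith
    set Φ : E (d + 1) := ∫ x : Sph (d + 1), (max (u - ext S.bd x q) 0) • (x : E (d + 1))
      ∂(sig (d + 1)) with hΦ
    have hcx : Continuous fun x : Sph (d + 1) => ext S.bd x q :=
      cont_of_angle _ (fun x x' => fb x x' q)
    have hint : Integrable (fun x : Sph (d + 1) => (max (u - ext S.bd x q) 0) •
        (x : E (d + 1))) (sig (d + 1)) := by
      refine integrable_of_cont _ ?_
      have h1 : Continuous fun x : Sph (d + 1) => max (u - ext S.bd x q) 0 := by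
        fun_prop
      exact h1.smul continuous_subtype_val
    have hint2 : Integrable (fun x : Sph (d + 1) =>
        (max (τ - angle (x : E (d + 1)) (p : E (d + 1))) 0) • (x : E (d + 1))) (sig (d + 1)) := by
      refine integrable_of_cont _ ?_
      have h2 := cont_angle p
      have h1 : Continuous fun x : Sph (d + 1) =>
          max (τ - angle (x : E (d + 1)) (p : E (d + 1))) 0 := by
        fun_prop
      exact h1.smul continuous_subtype_val
    have h1 : inner ℝ e Φ = ∫ x : Sph (d + 1), max (u - ext S.bd x q) 0 *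
        inner ℝ e (x : E (d + 1)) ∂(sig (d + 1)) := by
      rw [hΦ, ← integral_inner hint]
      congr 1
      ext x : 1
      rw [inner_smul_right]
    have h2 : (om d * ∫ s in (0 : ℝ)..τ, Real.sin s ^ d) * inner ℝ e (p : E (d + 1)) =
        ∫ x : Sph (d + 1), max (τ - angle (x : E (d + 1)) (p : E (d + 1))) 0 *
          inner ℝ e (x : E (d + 1)) ∂(sig (d + 1)) := by
      rw [← inner_smul_right, ← cap_vec d hd τ hτ0.le (by linarith) p, ← integral_inner hint2]
      congr 1
      ext x : 1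
      rw [inner_smul_right]
    have h3 : (om d * ∫ s in (0 : ℝ)..τ, Real.sin s ^ d) * inner ℝ e (p : E (d + 1)) ≤
        inner ℝ e Φ := by
      rw [h1, h2]
      have hce : Continuous fun x : Sph (d + 1) => inner ℝ e (x : E (d + 1)) :=
        continuous_const.inner continuous_subtype_val
      refine integral_mono ?_ ?_ ?_
      · refine integrable_of_cont _ ?_
        have := cont_angle p
        fun_prop
      · refine integrable_of_cont _ ?_
        fun_prop
      · intro x
        show max (τ - angle (x : E (d + 1)) (p : E (d + 1))) 0 * inner ℝ e (x : E (d + 1)) ≤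
          max (u - ext S.bd x q) 0 * inner ℝ e (x : E (d + 1))
        rcases le_or_gt (ext S.bd x q) u with h4 | h4
        · refine mul_le_mul_of_nonneg_right ?_ (hepos x h4).le
          refine max_le_max ?_ le_rfl
          have := hle x
          linarith
        · have h5 := hle x
          rw [max_eq_right (by linarith), max_eq_right (by linarith)]
    calc r = (om d * ∫ s in (0 : ℝ)..τ, Real.sin s ^ d) * Real.sin τ := by rw [hr]; ring
      _ ≤ (om d * ∫ s in (0 : ℝ)..τ, Real.sin s ^ d) * inner ℝ e (p : E (d + 1)) :=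
          mul_le_mul_of_nonneg_left hpe (by positivity)
      _ ≤ inner ℝ e Φ := h3
      _ ≤ ‖e‖ * ‖Φ‖ := real_inner_le_norm _ _
      _ = ‖Φ‖ := by rw [he, one_mul]

/-- The threshold. -/
noncomputable def thr (d : ℕ) : ℝ := Real.arccos (-1 / ((d : ℝ) + 1)) / 2

/-- The second bound. -/
theorem second (d : ℕ) (hd : 1 ≤ d) (M : Type) [MetricSpace M] (S : Fill d M)
    (hS : S.NonShort) (htop : (CompactSpace M ∧ S.Triangulated) ∨ S.NoRetraction)
    (t : ℝ) (ht0 : 0 ≤ t) (ht : t < thr d) :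
    volume (ball (0 : E (d + 1)) 1) * ENNReal.ofReal
      ((Real.sin (thr d - t) * (∫ s in (0 : ℝ)..(thr d - t), Real.sin s ^ d) /
        ∫ s in (0 : ℝ)..Real.pi, Real.sin s ^ (d + 1)) ^ (d + 1)) ≤ deepVol S t := by
  have hdR : (0 : ℝ) < (d : ℝ) + 1 := by positivity
  have hcont : Continuous fun u : ℝ =>
      (Real.sin (u - t) * (∫ s in (0 : ℝ)..(u - t), Real.sin s ^ d) /
        ∫ s in (0 : ℝ)..Real.pi, Real.sin s ^ (d + 1)) ^ (d + 1) := by
    have h1 : Continuous fun b : ℝ => ∫ s in (0 : ℝ)..b, Real.sin s ^ d := by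
      apply intervalIntegral.continuous_primitive
      intro a b
      apply Continuous.intervalIntegrable
      fun_prop
    have h2 : Continuous fun u : ℝ => ∫ s in (0 : ℝ)..(u - t), Real.sin s ^ d :=
      h1.comp (continuous_id.sub continuous_const)
    exact (((Real.continuous_sin.comp (continuous_id.sub continuous_const)).mul h2).div_const
      _).pow _
  have hV : volume (ball (0 : E (d + 1)) 1) ≠ ⊤ := measure_ball_lt_top.ne
  have htend : Tendsto (fun u : ℝ => volume (ball (0 : E (d + 1)) 1) * ENNReal.ofReal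
      ((Real.sin (u - t) * (∫ s in (0 : ℝ)..(u - t), Real.sin s ^ d) /
        ∫ s in (0 : ℝ)..Real.pi, Real.sin s ^ (d + 1)) ^ (d + 1))) (𝓝[<] thr d)
      (𝓝 (volume (ball (0 : E (d + 1)) 1) * ENNReal.ofReal
      ((Real.sin (thr d - t) * (∫ s in (0 : ℝ)..(thr d - t), Real.sin s ^ d) /
        ∫ s in (0 : ℝ)..Real.pi, Real.sin s ^ (d + 1)) ^ (d + 1)))) := by
    refine ENNReal.Tendsto.const_mul ?_ (Or.inr hV)
    exact ((ENNReal.continuous_ofReal.comp hcont).tendsto _).mono_left nhdsWithin_le_nhds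
  refine le_of_tendsto htend ?_
  have hev : ∀ᶠ u in 𝓝[<] thr d, t < u := by
    have h1 : ∀ᶠ u in 𝓝 (thr d), t < u := lt_mem_nhds ht
    exact h1.filter_mono nhdsWithin_le_nhds
  filter_upwards [hev, self_mem_nhdsWithin] with u hu1 hu2
  have hu2' : u < thr d := hu2
  have h2u : 2 * u < Real.arccos (-1 / ((d : ℝ) + 1)) := by
    unfold thr at hu2'
    linarith
  have hpi : Real.arccos (-1 / ((d : ℝ) + 1)) ≤ Real.pi := Real.arccos_le_pi _
  refine second_u d hd M S hS htop t u ht0 hu1 (by linarith) ?_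
  have hb1 : (-1 : ℝ) ≤ -1 / ((d : ℝ) + 1) := by
    rw [le_div_iff₀ hdR]
    linarith
  have hb2 : -1 / ((d : ℝ) + 1) ≤ 1 := by
    rw [div_le_iff₀ hdR]
    linarith
  push_cast
  rw [← Real.cos_arccos hb1 hb2]
  refine Real.cos_lt_cos_of_nonneg_of_le_pi (by linarith) hpi h2u

end Pool.Agent.H82.FD
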